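import Pool.Agent.W910.FC.Collapse
import Pool.Agent.W910.Hull.Tower

/-!
# Monotone Borel hulls for null sets versus measurable sets

* There is a preordered set of forcing conditions which preserves `ω₁` and forces Martin's axiom
  for `ℵ₁` dense sets together with `𝔠 ≤ ℵ₂`.
* Martin's axiom for `ℵ₁` dense sets implies that there is no monotone Borel hull operation on the
  Lebesgue measurable sets of reals.
* Together with `𝔠 ≤ ℵ₂` it implies `add(𝒩) = cof(𝒩)` and the existence of a monotone Borel hull
  operation on the Lebesgue null sets.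

The forcing language is the one of `Pool.Agent.Helper669.Forcing`: a sentence is the set of the
conditions which force it, `fnot`, `fand`, `fall` are the primitive connectives and `fimp`, `fex`
are defined from them classically; a name for a subset of a ground model set `X` is a map sending
`x : X` to a set of conditions, and `meets N` says that the generic filter meets `N`. The sentence
`MartinHolds P X` is the translation into the forcing language of the proposition `MartinFor X`
(both are in `Pool.Agent.W684.FM.Defs`), which is Martin's axiom for preorders with underlying set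
`X` and `X`-indexed families of dense sets; `ContinuumLe P Y` says that in the extension there is a
map from `Y` onto the set of all functions from the natural numbers to themselves.
-/

set_option autoImplicit false

namespace Pool.Agent.Results.MP_e5f4bd_lc.ForcedNoHull

open Cardinal MeasureTheory Pool.Agent.Helper669.Forcing Pool.Agent.W684.FM

/-- The countable chain condition: every set of pairwise incompatible conditions is countable
(a smaller condition is stronger). -/
def IsCCC (P : Type) [Preorder P] : Prop :=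
  ∀ A : Set P, (∀ p ∈ A, ∀ q ∈ A, p ≠ q → ¬ ∃ r : P, r ≤ p ∧ r ≤ q) → A.Countable

/-- Martin's axiom for `ℵ₁` dense sets: for every nonempty preordered set `P` with the countable
chain condition and every family of at most `ℵ₁` dense subsets of `P` there is a filter in `P`
which meets each of them. -/
def MartinAxiomAleph1 : Prop :=
  ∀ (P : Type) [Preorder P] [Nonempty P], IsCCC P →
    ∀ 𝒟 : Set (Set P), #𝒟 ≤ ℵ₁ → (∀ D ∈ 𝒟, ∀ p : P, ∃ q ∈ D, q ≤ p) →
      ∃ G : Set P, G.Nonempty ∧ (∀ p ∈ G, ∀ q : P, p ≤ q → q ∈ G) ∧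
        (∀ p ∈ G, ∀ q ∈ G, ∃ r ∈ G, r ≤ p ∧ r ≤ q) ∧ ∀ D ∈ 𝒟, (G ∩ D).Nonempty

/-- The Lebesgue null sets of reals. -/
def NullSets : Set (Set ℝ) := {A | volume A = 0}

/-- The Lebesgue measurable sets of reals (measurable for the completed measure). -/
def LebesgueSets : Set (Set ℝ) := {A | NullMeasurableSet A volume}

/-- There is a monotone Borel hull operation on the family `F` (with respect to the null sets). -/
def HasMonotoneBorelHull (F : Set (Set ℝ)) : Prop :=
  ∃ ψ : Set ℝ → Set ℝ,
    (∀ A ∈ F, MeasurableSet[borel ℝ] (ψ A) ∧ A ⊆ ψ A ∧ ψ A \ A ∈ NullSets) ∧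
    ∀ A ∈ F, ∀ B ∈ F, A ⊆ B → ψ A ⊆ ψ B

/-- `add(𝒩)`: the least cardinality of a family of null sets whose union is not null. -/
noncomputable def addN : Cardinal.{0} :=
  sInf {κ | ∃ F : Set (Set ℝ), #F = κ ∧ F ⊆ NullSets ∧ ⋃₀ F ∉ NullSets}

/-- `cof(𝒩)`: the least cardinality of a family of null sets such that every null set is contained
in a member of the family. -/
noncomputable def cofN : Cardinal.{0} :=
  sInf {κ | ∃ F : Set (Set ℝ), #F = κ ∧ F ⊆ NullSets ∧ ∀ N ∈ NullSets, ∃ A ∈ F, N ⊆ A}

/-- There is a preordered set `P` of forcing conditions such that every condition forces that `ω₁`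
is preserved, that Martin's axiom for `ℵ₁` dense sets holds and that the continuum is at most `ℵ₂`.
These axioms (whose two formulations are equivalent) imply that there is no monotone Borel hull
operation on the Lebesgue measurable sets, that there is one on the null sets, and that
`add(𝒩) = cof(𝒩)`. -/
theorem result :
    (∃ (P : Type) (_ : Preorder P), Nonempty P ∧ ∀ p : P,
      p ∈ OmegaOnePreserved P ∧ p ∈ MartinHolds P Om1 ∧
        p ∈ ContinuumLe P (ℵ_ 2 : Cardinal.{0}).out) ∧
    (MartinFor Om1 ↔ MartinAxiomAleph1) ∧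
    ((∃ E : (ℵ_ 2 : Cardinal.{0}).out → ℕ → ℕ, Function.Surjective E) ↔
      (𝔠 : Cardinal.{0}) ≤ ℵ_ 2) ∧
    (MartinAxiomAleph1 → ¬ HasMonotoneBorelHull LebesgueSets) ∧
    (MartinAxiomAleph1 → (𝔠 : Cardinal.{0}) ≤ ℵ_ 2 → HasMonotoneBorelHull NullSets ∧ addN = cofN) := by
  have hborel : (inferInstance : MeasurableSpace ℝ) = borel ℝ := BorelSpace.measurable_eq
  refine ⟨Pool.Agent.W910.FC.exists_forcing, martinFor_om1_iff, ?_, ?_, ?_⟩
  · have h1 : #(ℕ → ℕ) = (𝔠 : Cardinal.{0}) := by
      simp
    constructor
    · rintro ⟨E, hE⟩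
      have h2 := mk_le_of_surjective hE
      rwa [h1, mk_out] at h2
    · intro h
      rw [← h1, ← mk_out (ℵ_ 2)] at h
      obtain ⟨e⟩ := h
      exact ⟨Function.invFun e, Function.invFun_surjective e.injective⟩
  · rintro hMA ⟨ψ, h1, h2⟩
    refine Pool.Agent.W910.Hull.no_hull hMA ψ (fun A hA => ?_) fun A B hA hB => h2 A hA B hB
    obtain ⟨h3, h4, h5⟩ := h1 A hA
    rw [← hborel] at h3
    exact ⟨h3, h4, h5⟩
  · intro hMA hc
    refine ⟨?_, Pool.Agent.W910.Hull.add_eq_cof hMA hc⟩
    obtain ⟨ψ, h1, h2⟩ := Pool.Agent.W910.Hull.hull_null hMA hc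
    refine ⟨ψ, fun A hA => ?_, fun A hA B hB => h2 A B hA hB⟩
    obtain ⟨h3, h4, h5⟩ := h1 A hA
    rw [← hborel]
    exact ⟨h3, h4, h5⟩

end Pool.Agent.Results.MP_e5f4bd_lc.ForcedNoHull
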